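import Mathlib
import Pool.Agent.V11309.Hankel.Auto

/-!
# MP_47b218_nt: Hankel determinants of the binary digit sum are automatic modulo every integer

We prove that for every modulus `m ≥ 1` (in particular for every power of two) the sequence
`H(n+1) mod m` is 2-automatic, where `H(n) = det [s(i+j)]_{0 ≤ i,j < n}` and `s` is the binary
digit sum.
-/

namespace Pool.Agent.Results.MP_47b218_nt.Automatic

/-- The number of ones in the binary expansion of `m`. -/
def onesCount (m : ℕ) : ℕ := (Nat.digits 2 m).count 1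

/-- The `n × n` Hankel determinant of the sequence `onesCount`. -/
def hankelDet (n : ℕ) : ℤ :=
  Matrix.det (Matrix.of fun i j : Fin n => (onesCount ((i : ℕ) + (j : ℕ)) : ℤ))

/-- A sequence is 2-automatic: there is a finite automaton with output which, reading the base-2
digits of `n` (most significant digit first; only the digits `0` and `1` are ever read), ends in
a state whose output is `a n`. -/
def TwoAutomatic {α : Type} (a : ℕ → α) : Prop :=
  ∃ (Q : Type) (_ : Finite Q) (q₀ : Q) (δ : Q → ℕ → Q) (out : Q → α),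
    ∀ n : ℕ, out ((Nat.digits 2 n).reverse.foldl δ q₀) = a n

/-- The 2-kernel of a sequence. -/
def twoKernel {α : Type} (a : ℕ → α) : Set (ℕ → α) :=
  {b | ∃ e r : ℕ, r < 2 ^ e ∧ b = fun n => a (2 ^ e * n + r)}

/-- For every `k ≥ 1` the sequence `H(n+1) mod 2^k` is 2-automatic (in the automaton sense and in
the kernel sense); the same holds modulo every integer `m ≥ 1`. -/
theorem result :
    (∀ k : ℕ, 1 ≤ k →
      TwoAutomatic (fun n => hankelDet (n + 1) % 2 ^ k) ∧
      (twoKernel (fun n => hankelDet (n + 1) % 2 ^ k)).Finite) ∧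
    (∀ m : ℕ, 1 ≤ m →
      TwoAutomatic (fun n => hankelDet (n + 1) % (m : ℤ)) ∧
      (twoKernel (fun n => hankelDet (n + 1) % (m : ℤ))).Finite) := by
  have main : ∀ m : ℕ, 1 ≤ m →
      TwoAutomatic (fun n => hankelDet (n + 1) % (m : ℤ)) ∧
      (twoKernel (fun n => hankelDet (n + 1) % (m : ℤ))).Finite := by
    intro m hm
    have : NeZero m := ⟨by omega⟩
    have hH : ∀ n, hankelDet (n + 1) % (m : ℤ) =
        (fun q : V11309.Hankel.St m => ((q.2.1.1).val : ℤ)) (V11309.Hankel.V m n) :=
      fun n => V11309.Hankel.H_mod m hm n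
    refine ⟨⟨V11309.Hankel.St m, inferInstance, V11309.Hankel.V m 0, V11309.Hankel.φ m,
      fun q => ((q.2.1.1).val : ℤ), fun n => ?_⟩, ?_⟩
    · rw [V11309.Hankel.foldl_digits _ _ (V11309.Hankel.φ_zero m) (V11309.Hankel.φ_one m)]
      exact (hH n).symm
    · exact V11309.Hankel.kernel_finite (V11309.Hankel.V m) (V11309.Hankel.φ m)
        (fun q : V11309.Hankel.St m => ((q.2.1.1).val : ℤ))
        (fun n => hankelDet (n + 1) % (m : ℤ)) hH
        (V11309.Hankel.φ_zero m) (V11309.Hankel.φ_one m)
  refine ⟨fun k _ => ?_, main⟩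
  have h := main (2 ^ k) (Nat.one_le_two_pow)
  push_cast at h
  exact h

end Pool.Agent.Results.MP_47b218_nt.Automatic
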